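import Mathlib
import Pool.Agent.H317.GR.StmB

/-!
# Project GR, KER: all the `p`-adic representations have the same kernel
-/

set_option autoImplicit false

namespace Pool.Agent.H195.GR

open Matrix Module
open Pool.Agent.H317.GR

lemma zmod_eq_zero (m : ℕ) (hm : 0 < m) (x : ZMod m)
    (h : ∀ (q k : ℕ) (_ : q.Prime) (hd : q ^ k ∣ m), ZMod.castHom hd (ZMod (q ^ k)) x = 0) :
    x = 0 := by
  have : NeZero m := ⟨hm.ne'⟩
  have hx : ((x.val : ℕ) : ZMod m) = x := ZMod.natCast_zmod_val x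
  rw [← hx, ZMod.natCast_eq_zero_iff]
  rw [Nat.dvd_iff_prime_pow_dvd_dvd]
  intro q k hq hd
  have h1 := h q k hq hd
  rw [← hx, map_natCast, ZMod.natCast_eq_zero_iff] at h1
  exact h1

lemma toQ_val (n p : ℕ) [Fact p.Prime] (A : SpecialLinearGroup (Fin n) ℤ_[p]) :
    (toQ n p A).val = A.val.map (algebraMap ℤ_[p] ℚ_[p]) := rfl

lemma toQ_trace (n p : ℕ) [Fact p.Prime] (A : SpecialLinearGroup (Fin n) ℤ_[p]) :
    (toQ n p A).val.trace = algebraMap ℤ_[p] ℚ_[p] A.val.trace := by
  rw [toQ_val, Matrix.trace, Matrix.trace, map_sum]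
  rfl

theorem ker : S_KER := by
  intro n Λ _ f hf ρ hρ hAI ψ hψ p _ g hg m hm
  -- (1)
  have h1 : ∀ g : Λ, ρ p g = 1 → ∀ h, ψ (g * h) = ψ h ∧ ψ (h * g) = ψ h := by
    intro g hg h
    have hg' : ρ p g⁻¹ = 1 := by rw [map_inv, hg, inv_one]
    rcases hψ p with hc | hc
    · constructor
      · have e1 := hc (g * h)
        rw [map_mul, hg, one_mul, hc h] at e1
        exact (Int.cast_injective e1).symm
      · have e1 := hc (h * g)
        rw [map_mul, hg, mul_one, hc h] at e1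
        exact (Int.cast_injective e1).symm
    · constructor
      · have e1 := hc (g * h)⁻¹
        have e2 := hc h⁻¹
        rw [inv_inv] at e1 e2
        rw [_root_.mul_inv_rev, map_mul, hg', mul_one, e2] at e1
        exact (Int.cast_injective e1).symm
      · have e1 := hc (h * g)⁻¹
        have e2 := hc h⁻¹
        rw [inv_inv] at e1 e2
        rw [_root_.mul_inv_rev, map_mul, hg', one_mul, e2] at e1
        exact (Int.cast_injective e1).symm
  have hg' : ρ p g⁻¹ = 1 := by rw [map_inv, hg, inv_one]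
  -- (2)
  have h2 : ∀ (q : ℕ) [Fact q.Prime] (h : Λ), (ρ q (g * h)).val.trace = (ρ q h).val.trace := by
    intro q _ h
    rcases hψ q with hc | hc
    · rw [hc, hc, (h1 g hg h).1]
    · rw [hc, hc, _root_.mul_inv_rev, (h1 g⁻¹ hg' h⁻¹).2]
  have h3 : ∀ (q : ℕ) [Fact q.Prime], ρ q g = 1 := by
    intro q _
    have h4 := hAI q ((toQ n q (ρ q g)).val - 1) (by
      intro h
      rw [sub_mul, one_mul, Matrix.trace_sub]
      have e1 : (toQ n q (ρ q g)).val * (((toQ n q).comp (ρ q)) h).val =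
          (toQ n q (ρ q (g * h))).val := by
        rw [map_mul, map_mul]
        rfl
      rw [e1, MonoidHom.comp_apply, toQ_trace, toQ_trace, h2 q h, sub_self])
    apply Subtype.ext
    ext i j
    have h5 := congrFun (congrFun (sub_eq_zero.1 h4) i) j
    rw [toQ_val, Matrix.map_apply] at h5
    apply (FaithfulSMul.algebraMap_injective ℤ_[q] ℚ_[q])
    rw [h5]
    change (1 : Matrix (Fin n) (Fin n) ℚ_[q]) i j =
      algebraMap ℤ_[q] ℚ_[q] ((1 : Matrix (Fin n) (Fin n) ℤ_[q]) i j)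
    rw [Matrix.one_apply, Matrix.one_apply]
    split_ifs <;> simp
  have h6 : ∀ (q k : ℕ), q.Prime → f (q ^ k) g = 1 := by
    intro q k hq
    have : Fact q.Prime := ⟨hq⟩
    rw [← hρ q k g, h3 q, map_one]
  apply Subtype.ext
  ext i j
  rw [← sub_eq_zero]
  refine zmod_eq_zero m hm _ ?_
  intro q k hq hd
  have h7 := hf (q ^ k) m hd hm g
  rw [h6 q k hq] at h7
  have h8 := congrArg (fun A : SpecialLinearGroup (Fin n) (ZMod (q ^ k)) => A.val i j) h7
  change ZMod.castHom hd (ZMod (q ^ k)) ((f m g).val i j) =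
    (1 : Matrix (Fin n) (Fin n) (ZMod (q ^ k))) i j at h8
  rw [map_sub]
  change ZMod.castHom hd (ZMod (q ^ k)) ((f m g).val i j) - ZMod.castHom hd (ZMod (q ^ k))
    ((1 : Matrix (Fin n) (Fin n) (ZMod m)) i j) = 0
  rw [h8, Matrix.one_apply, Matrix.one_apply]
  split_ifs
  · rw [map_one, sub_self]
  · rw [map_zero, sub_self]

end Pool.Agent.H195.GR
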